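import Pool.Agent.Helper42.DB.Goals2

set_option autoImplicit false

namespace Pool.Agent.Helper42.DB.PkVIT2

open Set Filter Topology Pool.Agent.Helper42.DB

theorem sh_sh {α : Type} (a b : ℕ) (w : ℕ → α) : sh a (sh b w) = sh (b + a) w := by
  funext k
  simp only [sh, Nat.add_assoc]

theorem vit2_aux {α : Type} (L : Lang α) (Sg : ℕ → (ℕ → α) → Prop) (τ : ℕ) :
    ∀ (n N : ℕ) (W : ℕ → α) (J : Finset (ℕ × ℕ)), J.card = n → L.P N W →
    (∀ x ∈ J, τ ≤ x.2 ∧ x.1 + (2 * x.2 + 1) ≤ N ∧ Sg x.2 (sh x.1 W)) →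
    (∀ x ∈ J, ∀ y ∈ J, x ≠ y → x.1 + (2 * x.2 + 1) < y.1 ∨ y.1 + (2 * y.2 + 1) < x.1) →
    Win L.P Sg τ N (∑ x ∈ J, (2 * x.2 + 1)) W := by
  intro n
  induction n with
  | zero =>
    intro N W J hc hP _ _
    have : J = ∅ := Finset.card_eq_zero.mp hc
    subst this
    simpa using Win.nil N W hP
  | succ n ih =>
    intro N W J hc hP hJ hd
    have hne : J.Nonempty := by
      rw [← Finset.card_pos, hc]; omega
    obtain ⟨x, hxJ, hmin⟩ := Finset.exists_min_image J (fun y => y.1) hne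
    obtain ⟨k, a⟩ := x
    have hbig : ∀ y ∈ J.erase (k, a), k + (2 * a + 1) < y.1 := by
      intro y hy
      have hy' := Finset.mem_erase.mp hy
      have h1 := hmin y hy'.2
      rcases hd (k, a) hxJ y hy'.2 (Ne.symm hy'.1) with h | h
      · exact h
      · simp only at h h1
        omega
    obtain ⟨hτ, hN, hSg⟩ := hJ _ hxJ
    simp only at hτ hN hSg
    set s := k + (2 * a + 1) with hs
    let f : ℕ × ℕ → ℕ × ℕ := fun y => (y.1 - s, y.2)
    have hinj : Set.InjOn f (J.erase (k, a) : Finset (ℕ × ℕ)) := by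
      intro y hy z hz hyz
      have h1 := hbig y (Finset.mem_coe.mp hy)
      have h2 := hbig z (Finset.mem_coe.mp hz)
      simp only [f, Prod.mk.injEq] at hyz
      ext
      · omega
      · exact hyz.2
    have hcard : ((J.erase (k, a)).image f).card = n := by
      rw [Finset.card_image_of_injOn hinj, Finset.card_erase_of_mem hxJ, hc]
      rfl
    have hP' : L.P (N - s) (sh s W) := L.sub N s (N - s) W (by omega) hP
    have key := ih (N - s) (sh s W) ((J.erase (k, a)).image f) hcard hP' (by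
      intro y hy
      obtain ⟨z, hz, rfl⟩ := Finset.mem_image.mp hy
      have h1 := hbig z hz
      obtain ⟨h2, h3, h4⟩ := hJ z (Finset.mem_of_mem_erase hz)
      refine ⟨h2, ?_, ?_⟩
      · simp only [f]; omega
      · simp only [f]
        rw [sh_sh]
        have : s + (z.1 - s) = z.1 := by omega
        rw [this]
        exact h4) (by
      intro y hy y' hy' hne
      obtain ⟨z, hz, rfl⟩ := Finset.mem_image.mp hy
      obtain ⟨z', hz', rfl⟩ := Finset.mem_image.mp hy'
      have h1 := hbig z hz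
      have h1' := hbig z' hz'
      have hzz : z ≠ z' := fun h => hne (by rw [h])
      have := hd z (Finset.mem_of_mem_erase hz) z' (Finset.mem_of_mem_erase hz') hzz
      simp only [f]
      omega)
    have hsum : ∑ x ∈ (J.erase (k, a)).image f, (2 * x.2 + 1)
        = ∑ x ∈ J.erase (k, a), (2 * x.2 + 1) := by
      rw [Finset.sum_image (by simpa using hinj)]
    rw [hsum] at key
    have hPk : L.P k W := by
      have h0 := L.sub N 0 k W (by omega) hP
      have : sh 0 W = W := by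
        funext j; simp [sh]
      rwa [this] at h0
    have hw := Win.cons (P := L.P) (Sg := Sg) (τ := τ) k a (N - s)
      (∑ x ∈ J.erase (k, a), (2 * x.2 + 1)) W hPk hτ hSg key
    have e1 : k + (2 * a + 1) + (N - s) = N := by omega
    have e2 : 2 * a + 1 + ∑ x ∈ J.erase (k, a), (2 * x.2 + 1) = ∑ x ∈ J, (2 * x.2 + 1) :=
      Finset.add_sum_erase J (fun x => 2 * x.2 + 1) hxJ
    rw [e1, e2] at hw
    exact hw

theorem win_le {α : Type} (P : ℕ → (ℕ → α) → Prop) (Sg : ℕ → (ℕ → α) → Prop) (τ N M : ℕ)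
    (w : ℕ → α) (h : Win P Sg τ N M w) : M ≤ N := by
  induction h with
  | nil N w h => exact Nat.zero_le _
  | cons g a N L w _ _ _ _ ih => omega

theorem vit2 : G_VIT2 := by
  intro α L Sg τ N W J hP _ hJ hd
  exact vit2_aux L Sg τ _ N W J rfl hP hJ hd

theorem vit (h1 : G_VIT1) : G_VIT := by
  classical
  intro α L Sg τ N W hloc hP
  let I0 : Finset (ℕ × ℕ) := ((Finset.range (N + 1)) ×ˢ (Finset.range (N + 1))).filter
    (fun x => τ ≤ x.2 ∧ x.1 + (2 * x.2 + 1) ≤ N ∧ Sg x.2 (sh x.1 W))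
  let f : ℕ × ℕ → ℕ × ℕ := fun x => (x.1, 2 * x.2 + 1)
  have hinj : Function.Injective f := by
    intro x y hxy
    simp only [f, Prod.mk.injEq] at hxy
    ext
    · exact hxy.1
    · omega
  obtain ⟨J, hJI, hd, hc⟩ := h1 (I0.image f)
  let J0 : Finset (ℕ × ℕ) := I0.filter (fun x => f x ∈ J)
  have hJ0 : J0.image f = J := by
    ext y
    simp only [J0, Finset.mem_image, Finset.mem_filter]
    constructor
    · rintro ⟨x, ⟨_, hx⟩, rfl⟩
      exact hx
    · intro hy
      obtain ⟨x, hx, rfl⟩ := Finset.mem_image.mp (hJI hy)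
      exact ⟨x, ⟨hx, hy⟩, rfl⟩
  have hsum : ∑ x ∈ J, x.2 = ∑ x ∈ J0, (2 * x.2 + 1) := by
    rw [← hJ0, Finset.sum_image (fun x _ y _ h => hinj h)]
  have hwin : Win L.P Sg τ N (∑ x ∈ J0, (2 * x.2 + 1)) W := by
    apply vit2 α L Sg τ N W J0 hP hloc
    · intro x hx
      exact (Finset.mem_filter.mp (Finset.mem_filter.mp hx).1).2
    · intro x hx y hy hxy
      have h1 := (Finset.mem_filter.mp hx).2
      have h2 := (Finset.mem_filter.mp hy).2
      exact hd _ h1 _ h2 (fun h => hxy (hinj h))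
  refine ⟨∑ x ∈ J0, (2 * x.2 + 1), ?_, win_le _ _ _ _ _ _ hwin, hwin⟩
  have hset : {t : ℕ | ∃ a k : ℕ, τ ≤ a ∧ k + 2 * a + 1 ≤ N ∧ Sg a (sh k W) ∧
      k ≤ t ∧ t ≤ k + 2 * a + 1} = {t : ℕ | ∃ x ∈ I0.image f, x.1 ≤ t ∧ t ≤ x.1 + x.2} := by
    ext t
    simp only [Set.mem_ofPred_eq]
    constructor
    · rintro ⟨a, k, h1, h2, h3, h4, h5⟩
      refine ⟨f (k, a), Finset.mem_image_of_mem f ?_, h4, ?_⟩
      · simp only [I0, Finset.mem_filter, Finset.mem_product, Finset.mem_range]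
        refine ⟨⟨by omega, by omega⟩, h1, by omega, h3⟩
      · simp only [f]; omega
    · rintro ⟨x, hx, h4, h5⟩
      obtain ⟨z, hz, rfl⟩ := Finset.mem_image.mp hx
      obtain ⟨h1, h2, h3⟩ := (Finset.mem_filter.mp hz).2
      simp only [f] at h4 h5
      exact ⟨z.2, z.1, h1, by omega, h3, h4, by omega⟩
  unfold badc
  rw [hset]
  refine hc.trans ?_
  rw [← hsum]
  have : ∑ x ∈ J, (x.2 + 1) ≤ ∑ x ∈ J, 2 * x.2 := by
    apply Finset.sum_le_sum
    intro x hx
    obtain ⟨z, hz, rfl⟩ := Finset.mem_image.mp (hJI hx)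
    simp only [f]; omega
  rw [← Finset.mul_sum] at this
  omega

theorem thm : G_VIT1 → G_VIT2 ∧ G_VIT := fun h => ⟨vit2, vit h⟩

end Pool.Agent.Helper42.DB.PkVIT2

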